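import Pool.Agent.Work.MP_bb6995_co.Bd.B05
import Pool.Agent.Work.MP_bb6995_co.Bd.B04
import Pool.Agent.Work.MP_bb6995_co.Bd.B06

/-!
All steps together (MP_bb6995_co, all orders).
-/

namespace Pool.Agent.BagR

theorem st_cover_one : S_cover_one := pr_cover_one pr_wid_univ pr_wid_ball

theorem st_cov_a : S_cov_a := pr_cov_a pr_wid_self st_cover_one

theorem st_cov_b : S_cov_b := pr_cov_b pr_wid_two st_cover_one

theorem st_cov_c : S_cov_c := pr_cov_c pr_wid_univ pr_wid_self pr_wid_ball st_cover_one

theorem st_s1_one : S_s1_one := pr_s1_one st_cov_a st_cov_b pr_sum_NN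

theorem st_s1_far : S_s1_far := pr_s1_far st_cov_a st_cov_b st_cov_c pr_sum_NN

theorem st_s2_one : S_s2_one := pr_s2_one st_cov_a st_cov_b pr_sum_NN

theorem st_s2_two : S_s2_two := pr_s2_two st_cov_a st_cov_b pr_sum_NN

theorem st_s2_far : S_s2_far := pr_s2_far st_cov_a st_cov_b st_cov_c pr_sum_NN

theorem st_card_FF : S_card_FF := pr_card_FF pr_wid_self st_cover_one

theorem st_levels : S_levels := pr_levels pr_LL_nonempty

theorem st_A_ge : S_A_ge := pr_A_ge st_card_FF pr_sum_FF

theorem st_tight : S_tight := pr_tight st_card_FF pr_sum_FF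

theorem st_exo_one : S_exo_one := pr_exo_one pr_exo_split pr_gg_eq

theorem st_sum_far : S_sum_far := pr_sum_far st_s1_far

theorem st_B1 : S_B1 := pr_B1 pr_exo_split st_s1_one st_sum_far st_levels

theorem st_B2 : S_B2 := pr_B2 pr_exo_split st_s2_one st_s2_two st_s2_far st_levels st_card_FF

theorem st_bad_eq : S_bad_eq := pr_bad_eq st_cov_a st_cov_b

theorem st_bad_struct : S_bad_struct := pr_bad_struct st_bad_eq st_tight

theorem st_deficit : S_deficit := pr_deficit st_bad_struct pr_gg_eq st_s1_one

theorem st_Cx : S_Cx := pr_Cx st_exo_one st_deficit st_sum_far st_levels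

theorem st_four_struct : S_four_struct := pr_four_struct st_tight st_s2_two

theorem st_far_three : S_far_three := pr_far_three st_cover_one pr_far_avoid pr_no_tri

theorem st_key_big : S_key_big := pr_key_big pr_GG_mid pr_GG_big

theorem steps : Steps where
  card_FF := st_card_FF
  A_ge := st_A_ge
  levels := st_levels
  exo_even := pr_exo_even
  exo_one := st_exo_one
  B0 := pr_B0
  B1 := st_B1
  B2 := st_B2
  deficit := st_deficit
  Cx := st_Cx
  four_one := pr_four_one st_four_struct
  four_two := pr_four_two st_four_struct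
  far_three := st_far_three
  num_five := pr_num_five pr_red pr_key_small st_key_big
  num_four := pr_num_four pr_red
  num_three := pr_num_three pr_red
  num_one := pr_num_one

end Pool.Agent.BagR
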